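import Mathlib

namespace Pool.Agent.Results.MP_303525_mp.No

open Set Real

noncomputable section

/-- `l` is a Dirichlet eigenvalue of `-d²/dx² + V` on `[a, b]` -/
def IsEig (V : ℝ → ℝ) (a b l : ℝ) : Prop :=
  ∃ u u' : ℝ → ℝ, ContinuousOn u (Icc a b) ∧ u a = 0 ∧ u b = 0 ∧ (∃ x ∈ Icc a b, u x ≠ 0) ∧
    ∀ x ∈ Ioo a b, HasDerivAt u (u' x) x ∧ HasDerivAt u' ((V x - l) * u x) x

def c (x : ℝ) : ℝ := (2 + exp (-2 * x)) / (2 - exp (-2 * x))

def V (x : ℝ) : ℝ := 2 * (c x ^ 2 - 1)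

theorem E_le {x : ℝ} (hx : 0 ≤ x) : exp (-2 * x) ≤ 1 := exp_le_one_iff.2 (by linarith)

theorem c_ge {x : ℝ} (hx : 0 ≤ x) : 1 ≤ c x := by
  have := E_le hx
  rw [c, le_div_iff₀ (by linarith)]
  linarith [exp_pos (-2 * x)]

theorem c_zero : c 0 = 3 := by simp [c]; norm_num

theorem c_der {x : ℝ} (hx : 0 ≤ x) : HasDerivAt c (1 - c x ^ 2) x := by
  have h := E_le hx
  have h1 : HasDerivAt (fun x => exp (-2 * x)) (exp (-2 * x) * (-2)) x := by
    simpa using ((hasDerivAt_id x).const_mul (-2 : ℝ)).exp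
  have h2 : (2 - exp (-2 * x)) ≠ 0 := by linarith
  refine ((h1.const_add 2).div (h1.const_sub 2) h2).congr_deriv ?_
  rw [c]
  generalize exp (-2 * x) = E at h2
  field_simp; ring

theorem c_cont : ContinuousOn c (Icc 0 25) := fun _ hx =>
  (c_der hx.1).continuousAt.continuousWithinAt

theorem c_le : c 25 ≤ 1000001 / 1000000 := by
  have h1 : exp (-2 * 25 : ℝ) ≤ 1 / 10000000 := by
    have h2 : (6 : ℝ) ^ 10 ≤ exp 5 ^ 10 := by gcongr; linarith [add_one_le_exp (5 : ℝ)]
    rw [← exp_nat_mul] at h2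
    rw [show (-2 * 25 : ℝ) = -(((10 : ℕ) : ℝ) * 5) by norm_num, exp_neg, ← one_div]
    exact one_div_le_one_div_of_le (by norm_num) (le_trans (by norm_num) h2)
  have h2 : 0 < 2 - exp (-2 * 25 : ℝ) := by linarith [E_le (x := 25) (by norm_num)]
  rw [c, div_le_iff₀ h2]
  linarith

theorem conv2 {f f' f'' : ℝ → ℝ} (hf : ContinuousOn f (Icc 0 25))
    (h1 : ∀ x ∈ Ioo (0 : ℝ) 25, HasDerivAt f (f' x) x)
    (h2 : ∀ x ∈ Ioo (0 : ℝ) 25, HasDerivAt f' (f'' x) x) (h3 : ∀ x ∈ Ioo (0 : ℝ) 25, 0 ≤ f'' x) :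
    ConvexOn ℝ (Icc 0 25) f := by
  refine convexOn_of_hasDerivWithinAt2_nonneg (f' := f') (f'' := f'') (convex_Icc _ _) hf ?_ ?_ ?_ <;>
    rw [interior_Icc]
  · exact fun x hx => (h1 x hx).hasDerivWithinAt
  · exact fun x hx => (h2 x hx).hasDerivWithinAt
  · exact h3

theorem V_nonneg {x : ℝ} (hx : 0 ≤ x) : 0 ≤ V x := by
  have := c_ge hx
  rw [V]; nlinarith

theorem V_cont : ContinuousOn V (Icc 0 25) :=
  continuousOn_const.mul ((c_cont.pow 2).sub continuousOn_const)

theorem V_conv : ConvexOn ℝ (Icc 0 25) V := by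
  refine conv2 (f' := fun x => 4 * (c x - c x ^ 3))
    (f'' := fun x => 4 * ((c x ^ 2 - 1) * (3 * c x ^ 2 - 1))) V_cont (fun x hx => ?_)
    (fun x hx => ?_) (fun x hx => ?_)
  · refine ((((c_der hx.1.le).pow 2).sub_const 1).const_mul 2).congr_deriv ?_
    simp; ring
  · refine (((c_der hx.1.le).sub ((c_der hx.1.le).pow 3)).const_mul 4).congr_deriv ?_
    simp; ring
  · have := c_ge hx.1.le
    have h1 : 0 ≤ c x ^ 2 - 1 := by nlinarith
    have h2 : 0 ≤ 3 * c x ^ 2 - 1 := by nlinarith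
    positivity

theorem eig_pos {l : ℝ} (h : IsEig V 0 25 l) : 0 < l := by
  obtain ⟨u, u', hc, h0, h1, ⟨x, hx, hx0⟩, hd⟩ := h
  by_contra hl
  have := conv2 (f := fun x => u x ^ 2) (f' := fun x => 2 * (u x * u' x))
    (f'' := fun x => 2 * (u' x ^ 2 + (V x - l) * u x ^ 2)) (hc.pow 2)
    (fun x hx => by refine ((hd x hx).1.pow 2).congr_deriv ?_; simp; ring)
    (fun x hx => by refine (((hd x hx).1.mul (hd x hx).2).const_mul 2).congr_deriv ?_; ring)
    (fun x hx => by
      have : 0 ≤ V x - l := by linarith [V_nonneg hx.1.le, not_lt.1 hl]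
      positivity)
  have h2 := this.le_max_of_mem_Icc (x := 0) (y := 25) (by simp) (by simp) hx
  simp only [h0, h1] at h2
  simp at h2
  exact hx0 h2

/-- the phase function -/
def f (k : ℝ) : ℝ := k * 25 - arctan (k / c 25) + arctan (k / 3)

theorem atan_lo {z : ℝ} (hz : 0 ≤ z) : z - z ^ 3 / 3 ≤ arctan z := by
  have h : ∀ z : ℝ, HasDerivAt (fun z => arctan z - (z - z ^ 3 / 3)) (z ^ 4 / (1 + z ^ 2)) z :=
    fun z => by
      refine ((hasDerivAt_arctan z).sub ((hasDerivAt_id z).sub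
        ((hasDerivAt_pow 3 z).div_const 3))).congr_deriv ?_
      field_simp; simp; ring
  have := monotone_of_deriv_nonneg (fun z => (h z).differentiableAt)
    (fun z => by rw [(h z).deriv]; positivity) hz
  simpa using this

theorem atan_up {z : ℝ} (hz : 0 ≤ z) : arctan z ≤ z - z ^ 3 / 3 + z ^ 5 / 5 := by
  have h : ∀ z : ℝ, HasDerivAt (fun z => z - z ^ 3 / 3 + z ^ 5 / 5 - arctan z)
      (z ^ 6 / (1 + z ^ 2)) z := fun z => by
    refine ((((hasDerivAt_id z).sub ((hasDerivAt_pow 3 z).div_const 3)).add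
      ((hasDerivAt_pow 5 z).div_const 5)).sub (hasDerivAt_arctan z)).congr_deriv ?_
    field_simp; simp; ring
  have := monotone_of_deriv_nonneg (fun z => (h z).differentiableAt)
    (fun z => by rw [(h z).deriv]; positivity) hz
  simpa using this

theorem f_mono : StrictMono f := by
  have hc := c_ge (x := 25) (by norm_num)
  have h : ∀ z : ℝ, HasDerivAt (fun z => 2 * z - arctan z) (2 - 1 / (1 + z ^ 2)) z := fun z => by
    refine (((hasDerivAt_id z).const_mul 2).sub (hasDerivAt_arctan z)).congr_deriv ?_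
    simp
  have h1 := monotone_of_deriv_nonneg (fun z => (h z).differentiableAt) (fun z => by
    rw [(h z).deriv]
    have : 1 / (1 + z ^ 2) ≤ 1 := by rw [div_le_one (by positivity)]; nlinarith
    linarith)
  intro x y hxy
  have h2 := h1 (show x / c 25 ≤ y / c 25 by gcongr)
  have h3 := arctan_mono (show x / 3 ≤ y / 3 by gcongr)
  have h4 : (y - x) / c 25 ≤ y - x := div_le_self (by linarith) hc
  rw [sub_div] at h4
  simp only at h2
  simp only [f]
  linarith

theorem f_zero : f 0 = 0 := by simp [f]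

theorem f_ex (n : ℕ) : ∃ k, f k = (n + 1) * π := by
  have hc : Continuous f := by unfold f; fun_prop
  have h1 : f 0 ≤ (n + 1) * π := by rw [f_zero]; positivity
  have h2 : (n + 1) * π ≤ f ((n + 2) * π) := by
    have := arctan_lt_pi_div_two ((n + 2) * π / c 25)
    have := neg_pi_div_two_lt_arctan ((n + 2) * π / 3)
    have : 0 ≤ (n + 2) * π := by positivity
    rw [f]; nlinarith
  exact intermediate_value_univ _ _ hc ⟨h1, h2⟩

def kk (n : ℕ) : ℝ := (f_ex n).choose

theorem f_kk (n : ℕ) : f (kk n) = (n + 1) * π := (f_ex n).choose_spec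

theorem kk_pos (n : ℕ) : 0 < kk n := f_mono.lt_iff_lt.1 (by rw [f_zero, f_kk]; positivity)

theorem sin_atan (k : ℝ) {a : ℝ} (ha : a ≠ 0) :
    a * sin (arctan (k / a)) = k * cos (arctan (k / a)) := by
  have := tan_arctan (k / a)
  rw [tan_eq_sin_div_cos, div_eq_div_iff (cos_arctan_pos _).ne' ha] at this
  linarith

theorem eig_kk (n : ℕ) : IsEig V 0 25 (kk n ^ 2) := by
  set k := kk n with hk
  have hk0 : 0 < k := kk_pos n
  set α := arctan (k / 3)
  have hc := c_ge (x := 25) (by norm_num)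
  refine ⟨fun x => k * cos (k * x + α) - c x * sin (k * x + α),
    fun x => -(k ^ 2 + 1 - c x ^ 2) * sin (k * x + α) - k * (c x * cos (k * x + α)),
    (by fun_prop : Continuous _).continuousOn.sub (c_cont.mul (by fun_prop)), ?_, ?_, ?_,
    fun x hx => ?_⟩
  · simp only [mul_zero, zero_add, c_zero]
    linarith [sin_atan k (a := 3) (by norm_num)]
  · have h1 : k * 25 + α = arctan (k / c 25) + (n + 1 : ℕ) * π := by
      have := f_kk n
      rw [f] at this
      push_cast; linarith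
    simp only [h1, cos_add_nat_mul_pi, sin_add_nat_mul_pi]
    linear_combination (-(-1) ^ (n + 1)) * sin_atan k (a := c 25) (by linarith)
  · have h1 := arctan_lt_pi_div_two (k / 3)
    have h2 : (π / 2 - α) / k ∈ Icc (0 : ℝ) 25 := by
      refine ⟨div_nonneg (by linarith) hk0.le, ?_⟩
      rw [div_le_iff₀ hk0]
      have := f_kk n
      rw [f] at this
      have h3 : 0 ≤ arctan (k / c 25) := arctan_nonneg.2 (by positivity)
      have : 0 ≤ n * π := by positivity
      nlinarith [pi_pos]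
    refine ⟨_, h2, ?_⟩
    have h3 : k * ((π / 2 - α) / k) + α = π / 2 := by field_simp; ring
    simp only [h3, cos_pi_div_two, sin_pi_div_two]
    linarith [c_ge h2.1]
  · have h1 : HasDerivAt (fun x => k * x + α) k x := by
      simpa using ((hasDerivAt_id x).const_mul k).add_const α
    have h2 := c_der hx.1.le
    constructor
    · refine ((h1.cos.const_mul k).sub (h2.mul h1.sin)).congr_deriv ?_
      ring
    · refine (((((h2.pow 2).const_sub (k ^ 2 + 1)).neg).mul h1.sin).sub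
        ((h2.mul h1.cos).const_mul k)).congr_deriv ?_
      simp [V]; ring

theorem eig_of {l : ℝ} (h : IsEig V 0 25 l) : ∃ n, kk n ^ 2 = l := by
  have hl := eig_pos h
  obtain ⟨k, hk0, rfl⟩ : ∃ k, 0 < k ∧ l = k ^ 2 := ⟨√l, sqrt_pos.2 hl, (sq_sqrt hl.le).symm⟩
  obtain ⟨u, u', hc, h0, h1, ⟨x0, hx0, hu0⟩, hd⟩ := h
  set w : ℝ → ℝ := fun x => u' x + c x * u x with hw
  set w' : ℝ → ℝ := fun x => c x * w x - (1 + k ^ 2) * u x with hw'
  have d1 : ∀ x ∈ Ioo (0 : ℝ) 25, HasDerivAt w (w' x) x := fun x hx => by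
    refine ((hd x hx).2.add ((c_der hx.1.le).mul (hd x hx).1)).congr_deriv ?_
    simp only [hw', hw, V]; ring
  have d2 : ∀ x ∈ Ioo (0 : ℝ) 25, HasDerivAt w' (-k ^ 2 * w x) x := fun x hx => by
    refine (((c_der hx.1.le).mul (d1 x hx)).sub ((hd x hx).1.const_mul (1 + k ^ 2))).congr_deriv ?_
    simp only [hw', hw]; ring
  have hkx : ∀ x : ℝ, HasDerivAt (fun x => k * x) k x := fun x => by
    simpa using (hasDerivAt_id x).const_mul k
  have dP : ∀ x ∈ Ioo (0 : ℝ) 25,
      HasDerivAt (fun x => k * (w x * cos (k * x)) - w' x * sin (k * x)) 0 x := fun x hx => by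
    refine ((((d1 x hx).mul (hkx x).cos).const_mul k).sub ((d2 x hx).mul (hkx x).sin)).congr_deriv ?_
    ring
  have dQ : ∀ x ∈ Ioo (0 : ℝ) 25,
      HasDerivAt (fun x => k * (w x * sin (k * x)) + w' x * cos (k * x)) 0 x := fun x hx => by
    refine ((((d1 x hx).mul (hkx x).sin).const_mul k).add ((d2 x hx).mul (hkx x).cos)).congr_deriv ?_
    ring
  obtain ⟨P, hP⟩ := isOpen_Ioo.exists_is_const_of_deriv_eq_zero isPreconnected_Ioo
    (fun x hx => (dP x hx).differentiableAt.differentiableWithinAt) (fun x hx => (dP x hx).deriv)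
  obtain ⟨Q, hQ⟩ := isOpen_Ioo.exists_is_const_of_deriv_eq_zero isPreconnected_Ioo
    (fun x hx => (dQ x hx).differentiableAt.differentiableWithinAt) (fun x hx => (dQ x hx).deriv)
  have e1 : EqOn (fun x => k * (1 + k ^ 2) * u x) (fun x => c x * (P * cos (k * x) + Q * sin (k * x))
      - k * (Q * cos (k * x) - P * sin (k * x))) (Icc 0 25) := by
    refine EqOn.of_subset_closure (s := Ioo 0 25) (fun x hx => ?_) (continuousOn_const.mul hc)
      ((c_cont.mul (by fun_prop)).sub (by fun_prop)) Ioo_subset_Icc_self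
      (by rw [closure_Ioo (by norm_num)])
    have a1 := hP x hx
    have a2 := hQ x hx
    have a3 := sin_sq_add_cos_sq (k * x)
    have a4 : w' x = c x * w x - (1 + k ^ 2) * u x := rfl
    rw [← a1, ← a2]
    linear_combination k * a4 - (k * c x * w x - k * w' x) * a3
  have b0 := e1 (show (0 : ℝ) ∈ Icc 0 25 by simp)
  have b1 := e1 (show (25 : ℝ) ∈ Icc 0 25 by simp)
  have b2 := e1 hx0
  simp only [h0, h1, mul_zero, c_zero, cos_zero, sin_zero] at b0 b1 b2
  have hP0 : P ≠ 0 := by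
    rintro rfl
    have : Q = 0 := by
      have : k * Q = 0 := by linarith
      exact (mul_eq_zero.1 this).resolve_left hk0.ne'
    subst this
    exact (mul_ne_zero (by positivity) hu0) (b2.trans (by ring))
  have hc := c_ge (x := 25) (by norm_num)
  have s1 := sin_atan k (a := 3) (by norm_num)
  have s2 := sin_atan k (a := c 25) (by linarith)
  have hs : sin (f k) = 0 := by
    rw [f, sin_add, sin_sub, cos_sub]
    have : P * (3 * c 25) ≠ 0 := by positivity
    apply mul_left_cancel₀ this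
    set A := arctan (k / 3)
    set B := arctan (k / c 25)
    linear_combination (P * c 25 * (cos (k * 25) * cos B + sin (k * 25) * sin B)) * s1
      + (P * (k * sin (k * 25) * cos A - 3 * cos (k * 25) * cos A)) * s2
      - (k * cos A * cos B) * b1
      - (cos A * cos B * (c 25 * sin (k * 25) - k * cos (k * 25))) * b0
  obtain ⟨m, hm⟩ := sin_eq_zero_iff.1 hs
  have hm0 : 0 < m := by
    have := f_mono hk0
    rw [f_zero, ← hm] at this
    exact_mod_cast (mul_pos_iff_of_pos_right pi_pos).1 this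
  obtain ⟨n, rfl⟩ : ∃ n : ℕ, m = n + 1 := ⟨(m - 1).toNat, by omega⟩
  refine ⟨n, ?_⟩
  rw [f_mono.injective (show f (kk n) = f k by rw [f_kk, ← hm]; push_cast; ring)]

theorem kk_le {n : ℕ} {k : ℝ} (hk : 0 ≤ k) (h : (n + 1) * 3.141593 ≤
    k * 25 - (k - k ^ 3 / 3 + k ^ 5 / 5) + (k / 3 - (k / 3) ^ 3 / 3)) : kk n ≤ k := by
  rw [← f_mono.le_iff_le, f_kk, f]
  have h1 := atan_up hk
  have h2 := atan_lo (show 0 ≤ k / 3 by positivity)
  have h3 := arctan_mono (div_le_self hk (c_ge (x := 25) (by norm_num)))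
  have h4 : (n + 1) * π ≤ (n + 1) * 3.141593 := by gcongr; exact pi_lt_d6.le
  linarith

theorem le_kk {n : ℕ} {k : ℝ} (hk : 0 ≤ k) (h : k * 25 - (k / (1000001 / 1000000) -
    (k / (1000001 / 1000000)) ^ 3 / 3) + (k / 3 - (k / 3) ^ 3 / 3 + (k / 3) ^ 5 / 5) ≤
    (n + 1) * 3.141592) : k ≤ kk n := by
  rw [← f_mono.le_iff_le, f_kk, f]
  have hc := c_ge (x := 25) (by norm_num)
  have h1 := atan_up (show 0 ≤ k / 3 by positivity)
  have h2 := atan_lo (show 0 ≤ k / (1000001 / 1000000) by positivity)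
  have h3 := arctan_mono (show k / (1000001 / 1000000) ≤ k / c 25 by gcongr; exact c_le)
  have h4 : (n + 1) * 3.141592 ≤ (n + 1) * π := by gcongr; exact pi_gt_d6.le
  linarith

theorem result : ∃ (a b : ℝ) (V : ℝ → ℝ) (lam : ℕ → ℝ), a < b ∧ ContinuousOn V (Icc a b) ∧
    (∀ x ∈ Icc a b, 0 ≤ V x) ∧ ConvexOn ℝ (Icc a b) V ∧ StrictMono lam ∧
    range lam = {l | IsEig V a b l} ∧
    lam 0 / 1 ^ 2 + lam 3 / 4 ^ 2 < lam 1 / 2 ^ 2 + lam 2 / 3 ^ 2 := by
  refine ⟨0, 25, V, fun n => kk n ^ 2, by norm_num, V_cont, fun x hx => V_nonneg hx.1, V_conv,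
    fun m n h => ?_, ?_, ?_⟩
  · have : kk m < kk n := f_mono.lt_iff_lt.1 (by rw [f_kk, f_kk]; gcongr)
    exact pow_lt_pow_left₀ this (kk_pos m).le two_ne_zero
  · ext l
    exact ⟨by rintro ⟨n, rfl⟩; exact eig_kk n, eig_of⟩
  · have h0 : kk 0 ≤ 0.12908 := kk_le (by norm_num) (by norm_num)
    have h3 : kk 3 ≤ 0.51493 := kk_le (by norm_num) (by norm_num)
    have h1 : 0.25798 ≤ kk 1 := le_kk (by norm_num) (by norm_num)
    have h2 : 0.38655 ≤ kk 2 := le_kk (by norm_num) (by norm_num)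
    have g0 := pow_le_pow_left₀ (kk_pos 0).le h0 2
    have g3 := pow_le_pow_left₀ (kk_pos 3).le h3 2
    have g1 := pow_le_pow_left₀ (by norm_num) h1 2
    have g2 := pow_le_pow_left₀ (by norm_num) h2 2
    norm_num at g0 g1 g2 g3 ⊢
    linarith

end

end Pool.Agent.Results.MP_303525_mp.No
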